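import Pool.Agent.H500.ZO.Sys

set_option autoImplicit false
set_option linter.unusedSectionVars false

/-!
# Project ZO, part 7: integral systems (helper328, for helper500)
-/

namespace Pool.Agent.H328.ZO.SYS

open Polynomial NumberField IsDedekindDomain Filter Topology
open Pool.Agent.W401.Cheb (GK IsFrob IsInert dens)
open Pool.Agent.H500.HC (InRay QBar jz)
open Pool.Agent.H500.MW (PosUD posUD_of_not)
open Pool.Agent.H500.R2 (UnrOut)
open Pool.Agent.H500.TH (SolRes sol_of_ker)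
open Pool.Agent.R390.SF (SubFld IntegralSystem IsStable)
open Pool.Agent.NH56.PA (PotAbelian)
open Pool.Agent.H500.ZO (S_BRG SOL S_ABL S_SYS SemiS SemiOn solvDens PotHecke)

section dual

variable {n : ℕ} {R : Type} [CommRing R]

/-- the contragredient -/
def dual : GL (Fin n) R →* GL (Fin n) R where
  toFun A := ⟨(↑A⁻¹ : Matrix (Fin n) (Fin n) R).transpose, (↑A : Matrix (Fin n) (Fin n) R).transpose,
    by rw [← Matrix.transpose_mul, Units.mul_inv, Matrix.transpose_one],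
    by rw [← Matrix.transpose_mul, Units.inv_mul, Matrix.transpose_one]⟩
  map_one' := by
    apply Units.ext
    show (↑(1 : GL (Fin n) R)⁻¹ : Matrix (Fin n) (Fin n) R).transpose = 1
    rw [inv_one, Units.val_one, Matrix.transpose_one]
  map_mul' A B := by
    apply Units.ext
    show (↑(A * B)⁻¹ : Matrix (Fin n) (Fin n) R).transpose =
      (↑A⁻¹ : Matrix (Fin n) (Fin n) R).transpose * (↑B⁻¹ : Matrix (Fin n) (Fin n) R).transpose
    rw [mul_inv_rev, Units.val_mul, Matrix.transpose_mul]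

lemma coe_dual (A : GL (Fin n) R) :
    (dual A : Matrix (Fin n) (Fin n) R) = (↑A⁻¹ : Matrix (Fin n) (Fin n) R).transpose := rfl

lemma charpoly_dual (A : GL (Fin n) R) : (dual A : Matrix (Fin n) (Fin n) R).charpoly =
    (↑A⁻¹ : Matrix (Fin n) (Fin n) R).charpoly := by
  rw [coe_dual, Matrix.charpoly_transpose]

lemma dual_inj {A B : GL (Fin n) R} (h : dual A = dual B) : A = B := by
  have h1 : (dual A : Matrix (Fin n) (Fin n) R) = dual B := by rw [h]
  rw [coe_dual, coe_dual] at h1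
  have h2 := Matrix.transpose_injective h1
  have h3 : A⁻¹ = B⁻¹ := Units.ext h2
  exact inv_injective h3

end dual

section semi

variable {n : ℕ} {k : Type} [Field k]

/-- the orthogonal complement -/
def orth (W : Submodule k (Fin n → k)) : Submodule k (Fin n → k) where
  carrier := {x | ∀ u ∈ W, x ⬝ᵥ u = 0}
  zero_mem' u _ := zero_dotProduct u
  add_mem' {x y} hx hy u hu := by rw [add_dotProduct, hx u hu, hy u hu, add_zero]
  smul_mem' c x hx u hu := by rw [smul_dotProduct, hx u hu, smul_zero]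

lemma mem_orth {W : Submodule k (Fin n → k)} {x : Fin n → k} :
    x ∈ orth W ↔ ∀ u ∈ W, x ⬝ᵥ u = 0 := Iff.rfl

lemma orth_orth (W : Submodule k (Fin n → k)) : orth (orth W) = W := by
  have h1 : ∀ V : Submodule k (Fin n → k),
      orth V = (Matrix.toBilin' (1 : Matrix (Fin n) (Fin n) k)).orthogonal V := by
    intro V
    ext x
    rw [mem_orth, LinearMap.BilinForm.mem_orthogonal_iff]
    refine forall_congr' fun u => forall_congr' fun _ => ?_
    rw [Matrix.toBilin'_apply', Matrix.one_mulVec, dotProduct_comm]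
  rw [h1, h1]
  apply LinearMap.BilinForm.orthogonal_orthogonal
  · exact Matrix.nondegenerate_toBilin'_iff.2
      (Matrix.nondegenerate_of_det_ne_zero (by rw [Matrix.det_one]; exact one_ne_zero))
  · intro x y h
    rw [Matrix.toBilin'_apply', Matrix.one_mulVec] at h ⊢
    rw [dotProduct_comm]
    exact h

lemma orth_top : orth (⊤ : Submodule k (Fin n → k)) = ⊥ := by
  rw [eq_bot_iff]
  intro x hx
  rw [Submodule.mem_bot]
  funext i
  have := hx (Pi.single i 1) Submodule.mem_top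
  rw [dotProduct_single_one] at this
  exact this

lemma orth_bot : orth (⊥ : Submodule k (Fin n → k)) = ⊤ := by
  rw [← orth_top, orth_orth]

/-- complements -/
lemma isCompl_orth {W U : Submodule k (Fin n → k)} (h : IsCompl (orth W) U) :
    IsCompl W (orth U) := by
  refine ⟨disjoint_iff.2 ?_, codisjoint_iff.2 ?_⟩
  · rw [← orth_top, eq_comm]
    apply le_antisymm
    · rw [orth_top]
      exact bot_le
    · rintro x ⟨hx1, hx2⟩ u _
      have hx1' : x ∈ orth (orth W) := by rw [orth_orth]; exact hx1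
      have hu : u ∈ orth W ⊔ U := by rw [h.sup_eq_top]; exact Submodule.mem_top
      obtain ⟨y, hy, z, hz, rfl⟩ := Submodule.mem_sup.1 hu
      rw [dotProduct_add, hx1' y hy, hx2 z hz, add_zero]
  · rw [← orth_orth (W ⊔ orth U), ← orth_bot]
    congr 1
    rw [eq_bot_iff, ← h.inf_eq_bot]
    intro x hx
    refine ⟨fun u hu => hx u (Submodule.mem_sup_left hu), ?_⟩
    rw [← orth_orth U]
    exact fun u hu => hx u (Submodule.mem_sup_right hu)

/-- semisimplicity of the contragredient -/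
lemma semi_dual {G : Type} [Group G] (ρ : G →* GL (Fin n) k)
    (h : ∀ U : Submodule k (Fin n → k),
      (∀ g : G, ∀ u ∈ U, (ρ g : Matrix (Fin n) (Fin n) k).mulVec u ∈ U) →
      ∃ U' : Submodule k (Fin n → k),
        (∀ g : G, ∀ u ∈ U', (ρ g : Matrix (Fin n) (Fin n) k).mulVec u ∈ U') ∧ IsCompl U U')
    (W : Submodule k (Fin n → k))
    (hW : ∀ g : G, ∀ u ∈ W, (dual (ρ g) : Matrix (Fin n) (Fin n) k).mulVec u ∈ W) :
    ∃ W' : Submodule k (Fin n → k),
      (∀ g : G, ∀ u ∈ W', (dual (ρ g) : Matrix (Fin n) (Fin n) k).mulVec u ∈ W') ∧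
        IsCompl W W' := by
  obtain ⟨U', hU', hc⟩ := h (orth W) (by
    intro g x hx u hu
    have h1 := hx _ (hW g⁻¹ u hu)
    rw [coe_dual, map_inv, inv_inv, Matrix.dotProduct_mulVec, Matrix.vecMul_transpose] at h1
    exact h1)
  refine ⟨orth U', ?_, isCompl_orth hc⟩
  intro g x hx u hu
  have h1 := hx _ (hU' g⁻¹ u hu)
  rw [coe_dual, Matrix.mulVec_transpose]
  rw [map_inv, Matrix.dotProduct_mulVec] at h1
  exact h1

end semi

section rat

/-- the places of the rational field -/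
lemma place (ℓ : ℕ) [Fact ℓ.Prime] : ∃ (lam : HeightOneSpectrum (𝓞 ℚ)) (φ : 𝓞 ℚ →+* ZMod ℓ),
    Ideal.absNorm lam.asIdeal = ℓ ∧ RingHom.ker φ = lam.asIdeal := by
  set φ : 𝓞 ℚ →+* ZMod ℓ := (Int.castRingHom (ZMod ℓ)).comp
    (Rat.ringOfIntegersEquiv : 𝓞 ℚ →+* ℤ) with hφ
  have hsurj : Function.Surjective φ := by
    intro x
    obtain ⟨z, hz⟩ := ZMod.intCast_surjective x
    refine ⟨Rat.ringOfIntegersEquiv.symm z, ?_⟩
    rw [hφ, RingHom.comp_apply]
    have : (Rat.ringOfIntegersEquiv : 𝓞 ℚ →+* ℤ) (Rat.ringOfIntegersEquiv.symm z) = z :=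
      Rat.ringOfIntegersEquiv.apply_symm_apply z
    rw [this]
    exact hz
  have hprime : (RingHom.ker φ).IsPrime := RingHom.ker_isPrime φ
  have hne : RingHom.ker φ ≠ ⊥ := by
    intro h
    have h1 : ((ℓ : ℕ) : 𝓞 ℚ) ∈ RingHom.ker φ := by
      rw [RingHom.mem_ker, map_natCast, ZMod.natCast_self]
    rw [h, Ideal.mem_bot] at h1
    have h2 : (ℓ : ℕ) = 0 := by exact_mod_cast h1
    exact (Fact.out : ℓ.Prime).ne_zero h2
  refine ⟨⟨RingHom.ker φ, hprime, hne⟩, φ, ?_, rfl⟩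
  rw [Ideal.absNorm_apply, Submodule.cardQuot_apply]
  have h1 := Nat.card_congr (RingHom.quotientKerEquivOfSurjective hsurj).toEquiv
  rw [Nat.card_zmod] at h1
  exact h1

end rat

section main

variable {F : SubFld ℚ} [NumberField F] {n : ℕ}

lemma data {S : Finset ℕ} {w : ℕ} {T : IntegralSystem F n} (hT : T.GoodSystem S w)
    (b : GK F ≃* F.fixingSubgroup)
    (hF : ∀ (v : HeightOneSpectrum (𝓞 F)) (σ : GK F), IsFrob v σ →
      ∃ P : Ideal Pool.Agent.Y800.ZBar, P.IsMaximal ∧ P.under (𝓞 F) = v.asIdeal ∧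
      Pool.Agent.Y800.IsGeomFrob (Nat.card (𝓞 F ⧸ v.asIdeal)) P ((b σ)⁻¹ : F.fixingSubgroup))
    (hI : ∀ (v : HeightOneSpectrum (𝓞 F)) (τ : GK F), IsInert v τ →
      ∃ P : Ideal Pool.Agent.Y800.ZBar, P.IsMaximal ∧ P.under (𝓞 F) = v.asIdeal ∧
      Pool.Agent.Y800.InInertia P (b τ : F.fixingSubgroup))
    {N : ℕ} (hN : ∀ p ∈ S, p.Prime → p ∣ N) (v : HeightOneSpectrum (𝓞 F))
    (hNv : (N : 𝓞 F) ∉ v.asIdeal) (ℓ : ℕ) [Fact ℓ.Prime] (hℓv : (ℓ : 𝓞 F) ∉ v.asIdeal) :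
    (∀ τ, IsInert v τ → T.rho ℓ (b τ) = 1) ∧
    ∀ σ, IsFrob v σ → (T.rho ℓ (b σ)⁻¹ : Matrix (Fin n) (Fin n) ℤ_[ℓ]).charpoly =
      (T.poly v.asIdeal).map (Int.castRingHom ℤ_[ℓ]) := by
  obtain ⟨p, hp, hpv⟩ := Pool.Agent.Y800.HM.exists_prime_mem F v.asIdeal v.isMaximal
  have hpS : p ∉ S := by
    intro h
    obtain ⟨c, hc⟩ := hN p h hp
    apply hNv
    rw [hc, Nat.cast_mul]
    exact v.asIdeal.mul_mem_right _ hpv
  have hne : ℓ ≠ p := by
    rintro rfl
    exact hℓv hpv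
  have hg := hT.good p hp hpS v.asIdeal v.isMaximal hpv
  constructor
  · intro τ hτ
    obtain ⟨P, hP, hPv, hPτ⟩ := hI v τ hτ
    exact hg.unramified ℓ hne P hP hPv (b τ) hPτ
  · intro σ hσ
    obtain ⟨P, hP, hPv, hPσ⟩ := hF v σ hσ
    exact hg.frobenius ℓ hne P hP hPv (b σ)⁻¹ hPσ

/-- the kernel of the residual representation is open -/
lemma ker_res_open {S : Finset ℕ} {w : ℕ} {T : IntegralSystem F n} (hT : T.GoodSystem S w)
    (ℓ : ℕ) [Fact ℓ.Prime] : IsOpen ((T.res ℓ).ker : Set F.fixingSubgroup) := by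
  have h0 : ∀ x : ℤ_[ℓ], PadicInt.toZMod x = 0 ↔ ‖x‖ < 1 := by
    intro x
    rw [← RingHom.mem_ker, PadicInt.ker_toZMod, IsLocalRing.mem_maximalIdeal,
      PadicInt.mem_nonunits]
  have h1 : ((T.res ℓ).ker : Set F.fixingSubgroup) = ⋂ i, ⋂ j, {g | ‖(T.rho ℓ g :
      Matrix (Fin n) (Fin n) ℤ_[ℓ]) i j - (1 : Matrix (Fin n) (Fin n) ℤ_[ℓ]) i j‖ < 1} := by
    ext g
    rw [Set.mem_iInter]
    have h2 : ∀ i j, g ∈ {g | ‖(T.rho ℓ g : Matrix (Fin n) (Fin n) ℤ_[ℓ]) i j -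
        (1 : Matrix (Fin n) (Fin n) ℤ_[ℓ]) i j‖ < 1} ↔
        (T.res ℓ g : Matrix (Fin n) (Fin n) (ZMod ℓ)) i j =
          (1 : Matrix (Fin n) (Fin n) (ZMod ℓ)) i j := by
      intro i j
      have h3 : PadicInt.toZMod ((1 : Matrix (Fin n) (Fin n) ℤ_[ℓ]) i j) =
          (1 : Matrix (Fin n) (Fin n) (ZMod ℓ)) i j := by
        rw [Matrix.one_apply, Matrix.one_apply]
        split_ifs
        · exact map_one _
        · exact map_zero _
      have h4 : (T.res ℓ g : Matrix (Fin n) (Fin n) (ZMod ℓ)) i j =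
          PadicInt.toZMod ((T.rho ℓ g : Matrix (Fin n) (Fin n) ℤ_[ℓ]) i j) := rfl
      rw [h4, ← h3, ← sub_eq_zero, ← map_sub, h0]
      exact Iff.rfl
    constructor
    · intro hg i
      rw [Set.mem_iInter]
      intro j
      rw [h2]
      have h5 : T.res ℓ g = 1 := hg
      rw [h5]
      rfl
    · intro hg
      show T.res ℓ g = 1
      apply Units.ext
      ext i j
      have h5 := Set.mem_iInter.1 (hg i) j
      rw [h2] at h5
      exact h5
  rw [h1]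
  refine isOpen_iInter_of_finite fun i => isOpen_iInter_of_finite fun j => ?_
  have hc : Continuous fun g => (T.rho ℓ g : Matrix (Fin n) (Fin n) ℤ_[ℓ]) i j :=
    (hT.continuous ℓ).matrix_elem i j
  exact isOpen_lt (hc.sub continuous_const).norm continuous_const

/-- the residual representations with solvable image -/
lemma solRes {S : Finset ℕ} {w : ℕ} {T : IntegralSystem F n} (hT : T.GoodSystem S w)
    (b : GK F ≃* F.fixingSubgroup)
    (hU : ∀ U : Subgroup F.fixingSubgroup, IsOpen (U : Set F.fixingSubgroup) →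
      IsOpen ((U.comap b.toMonoidHom : Subgroup (GK F)) : Set (GK F)))
    (hF : ∀ (v : HeightOneSpectrum (𝓞 F)) (σ : GK F), IsFrob v σ →
      ∃ P : Ideal Pool.Agent.Y800.ZBar, P.IsMaximal ∧ P.under (𝓞 F) = v.asIdeal ∧
      Pool.Agent.Y800.IsGeomFrob (Nat.card (𝓞 F ⧸ v.asIdeal)) P ((b σ)⁻¹ : F.fixingSubgroup))
    (hI : ∀ (v : HeightOneSpectrum (𝓞 F)) (τ : GK F), IsInert v τ →
      ∃ P : Ideal Pool.Agent.Y800.ZBar, P.IsMaximal ∧ P.under (𝓞 F) = v.asIdeal ∧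
      Pool.Agent.Y800.InInertia P (b τ : F.fixingSubgroup))
    {N : ℕ} (hN : ∀ p ∈ S, p.Prime → p ∣ N) (ℓ : ℕ) [Fact ℓ.Prime]
    (hs : Group.IsSolvable (T.res ℓ).range) (lam : HeightOneSpectrum (𝓞 ℚ)) (φ : 𝓞 ℚ →+* ZMod ℓ)
    (hlam : Ideal.absNorm lam.asIdeal = ℓ) (hφ : RingHom.ker φ = lam.asIdeal) :
    SolRes (K := F) (E := ℚ) N n
      (fun v => (T.poly v.asIdeal).map (Int.castRingHom (𝓞 ℚ))) lam := by
  have hdual : ∀ g : GK F, dual (T.res ℓ (b g)) = 1 ↔ T.res ℓ (b g) = 1 := by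
    intro g
    constructor
    · intro h
      exact dual_inj (h.trans (map_one dual).symm)
    · intro h
      rw [h, map_one]
  refine ⟨ZMod ℓ, inferInstance, φ, dual.comp ((T.res ℓ).comp b.toMonoidHom), hφ, ?_, ?_, ?_, ?_⟩
  · have h1 : ((dual.comp ((T.res ℓ).comp b.toMonoidHom)).ker : Set (GK F)) =
        (((T.res ℓ).ker.comap b.toMonoidHom : Subgroup (GK F)) : Set (GK F)) := by
      ext g
      exact hdual g
    rw [h1]
    exact hU _ (ker_res_open hT ℓ)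
  · intro v hv τ hτ
    rw [hlam, Nat.cast_mul] at hv
    have h1 : (N : 𝓞 F) ∉ v.asIdeal := fun h => hv (v.asIdeal.mul_mem_right _ h)
    have h2 : (ℓ : 𝓞 F) ∉ v.asIdeal := fun h => hv (v.asIdeal.mul_mem_left _ h)
    have h3 := (data hT b hF hI hN v h1 ℓ h2).1 τ hτ
    show dual (T.res ℓ (b τ)) = 1
    rw [hdual]
    unfold IntegralSystem.res
    rw [MonoidHom.comp_apply, h3, map_one]
  · intro v hv hℓv σ hσ
    rw [hlam] at hℓv
    have h3 := (data hT b hF hI hN v hv ℓ hℓv).2 σ hσ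
    show (dual (T.res ℓ (b σ)) : Matrix (Fin n) (Fin n) (ZMod ℓ)).charpoly = _
    rw [charpoly_dual, ← map_inv]
    have h4 : (T.res ℓ (b σ)⁻¹ : Matrix (Fin n) (Fin n) (ZMod ℓ)) =
        (T.rho ℓ (b σ)⁻¹ : Matrix (Fin n) (Fin n) ℤ_[ℓ]).map PadicInt.toZMod := rfl
    rw [h4, Matrix.charpoly_map, h3, Polynomial.map_map, Polynomial.map_map]
    exact congrArg (fun f => Polynomial.map f (T.poly v.asIdeal)) (Subsingleton.elim _ _)
  · refine sol_of_ker ((T.res ℓ).comp b.toMonoidHom) _ ?_ ?_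
    · intro g hg
      exact (hdual g).2 hg
    · have h1 : ((T.res ℓ).comp b.toMonoidHom).range = (T.res ℓ).range := by
        rw [MonoidHom.range_comp, MonoidHom.range_eq_top.2 b.surjective, ← MonoidHom.range_eq_map]
      rw [h1]
      exact hs

/-- the density -/
lemma dens_le {T : IntegralSystem F n} {Q : HeightOneSpectrum (𝓞 ℚ) → Prop}
    (hQ : ∀ (ℓ : ℕ) [Fact ℓ.Prime], Group.IsSolvable (T.res ℓ).range →
      ∃ lam : HeightOneSpectrum (𝓞 ℚ), Ideal.absNorm lam.asIdeal = ℓ ∧ Q lam) (x : ℕ) :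
    solvDens T x ≤ dens Q x := by
  unfold solvDens dens
  refine div_le_div_of_nonneg_right ?_ (Nat.cast_nonneg _)
  have h1 : ∀ ℓ : {ℓ : ℕ | ℓ ≤ x ∧ ∃ _ : Fact ℓ.Prime, Group.IsSolvable (T.res ℓ).range},
      ∃ lam : HeightOneSpectrum (𝓞 ℚ), Ideal.absNorm lam.asIdeal = ℓ.1 ∧ Q lam := by
    rintro ⟨ℓ, hℓ, hp, hs⟩
    exact hQ ℓ hs
  choose f hf using h1
  have hfin : Finite {v : HeightOneSpectrum (𝓞 ℚ) // Ideal.absNorm v.asIdeal ≤ x ∧ Q v} := by
    have h2 : {I : Ideal (𝓞 ℚ) | Ideal.absNorm I ≤ x}.Finite := Ideal.finite_setOfPred_absNorm_le x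
    have h3 := h2.to_subtype
    refine Finite.of_injective (fun v : {v : HeightOneSpectrum (𝓞 ℚ) //
      Ideal.absNorm v.asIdeal ≤ x ∧ Q v} =>
        (⟨v.1.asIdeal, v.2.1⟩ : {I : Ideal (𝓞 ℚ) | Ideal.absNorm I ≤ x})) ?_
    intro v v' h
    apply Subtype.ext
    apply HeightOneSpectrum.ext
    exact congrArg (fun y : {I : Ideal (𝓞 ℚ) | Ideal.absNorm I ≤ x} => y.1) h
  have h4 := Nat.card_le_card_of_injective (fun ℓ : {ℓ : ℕ | ℓ ≤ x ∧ ∃ _ : Fact ℓ.Prime,
    Group.IsSolvable (T.res ℓ).range} => (⟨f ℓ, by rw [(hf ℓ).1]; exact ℓ.2.1, (hf ℓ).2⟩ :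
      {v : HeightOneSpectrum (𝓞 ℚ) // Ideal.absNorm v.asIdeal ≤ x ∧ Q v})) (by
    intro ℓ ℓ' h
    apply Subtype.ext
    have h5 : f ℓ = f ℓ' := congrArg Subtype.val h
    rw [← (hf ℓ).1, h5, (hf ℓ').1])
  rw [Nat.card_coe_set_eq] at h4
  exact_mod_cast h4

end main

theorem main : S_BRG → SOL → S_ABL → S_SYS := by
  intro hBRG hSOL hABL F _ n w S Λ T hn hT hsemi hdens
  have hNF : NumberField F := ⟨⟩
  obtain ⟨b, hU1, hU2, hb, hbs, hF, hI⟩ := hBRG F
  set N := 2 * ∏ p ∈ S.filter Nat.Prime, p with hNdef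
  have hN : ∀ p ∈ S, p.Prime → p ∣ N := fun p hp hpp =>
    (Finset.dvd_prod_of_mem (fun p => p) (Finset.mem_filter.2 ⟨hp, hpp⟩)).mul_left 2
  have hN2 : 2 ≤ N := by
    have : 0 < ∏ p ∈ S.filter Nat.Prime, p :=
      Finset.prod_pos fun p hp => (Finset.mem_filter.1 hp).2.pos
    omega
  have hpos : PosUD (SolRes (K := F) (E := ℚ) N n
      (fun v => (T.poly v.asIdeal).map (Int.castRingHom (𝓞 ℚ)))) := by
    apply posUD_of_not
    intro h
    apply hdens
    refine squeeze_zero (fun x => ?_) (fun x => dens_le (fun ℓ _ hs => ?_) x) h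
    · unfold solvDens
      positivity
    · obtain ⟨lam, φ, h1, h2⟩ := place ℓ
      exact ⟨lam, h1, solRes hT b hU1 hF hI hN ℓ hs lam φ h1 h2⟩
  obtain ⟨U, L, _, _, _, ι, e, t, ψ, hP⟩ := hSOL F ℚ (algebraMap ℚ QBar) N n hN2 _ hpos
  refine ⟨fun ℓ _ hℓ U hU => hsemi ℓ hℓ U hU, U.map b.toMonoidHom, hU2 U hP.isOpen, ?_⟩
  intro ℓ hℓp hℓΛ
  have hmain := hABL F ℚ (algebraMap ℚ QBar) N n _ U L ι e t ψ hN2 hP ℓ ℚ_[ℓ] (algebraMap ℚ ℚ_[ℓ])
    (dual.comp ((T.rat ℓ).comp b.toMonoidHom)) ?_ ?_ ?_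
  · rintro _ ⟨g, hg, rfl⟩ _ ⟨h, hh, rfl⟩
    have h1 := hmain g hg h hh
    have h2 : dual (T.rat ℓ (b g) * T.rat ℓ (b h)) = dual (T.rat ℓ (b h) * T.rat ℓ (b g)) := by
      rw [map_mul, map_mul]
      exact h1
    have h3 := dual_inj h2
    apply Units.ext
    have h4 : (((T.rho ℓ (b g) * T.rho ℓ (b h) : GL (Fin n) ℤ_[ℓ]) :
        Matrix (Fin n) (Fin n) ℤ_[ℓ])).map (algebraMap ℤ_[ℓ] ℚ_[ℓ]) =
        (((T.rho ℓ (b h) * T.rho ℓ (b g) : GL (Fin n) ℤ_[ℓ]) :
        Matrix (Fin n) (Fin n) ℤ_[ℓ])).map (algebraMap ℤ_[ℓ] ℚ_[ℓ]) := by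
      have h5 : Matrix.GeneralLinearGroup.map (algebraMap ℤ_[ℓ] ℚ_[ℓ])
          (T.rho ℓ (b g) * T.rho ℓ (b h)) = Matrix.GeneralLinearGroup.map (algebraMap ℤ_[ℓ] ℚ_[ℓ])
          (T.rho ℓ (b h) * T.rho ℓ (b g)) := by
        rw [map_mul (Matrix.GeneralLinearGroup.map (algebraMap ℤ_[ℓ] ℚ_[ℓ])),
          map_mul (Matrix.GeneralLinearGroup.map (algebraMap ℤ_[ℓ] ℚ_[ℓ]))]
        exact h3
      exact congrArg (fun A : GL (Fin n) ℚ_[ℓ] => (A : Matrix (Fin n) (Fin n) ℚ_[ℓ])) h5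
    exact Matrix.map_injective (FaithfulSMul.algebraMap_injective ℤ_[ℓ] ℚ_[ℓ]) h4
  · -- continuity
    have h1 : (fun g => ((dual.comp ((T.rat ℓ).comp b.toMonoidHom)) g :
        Matrix (Fin n) (Fin n) ℚ_[ℓ])) = fun g => (((T.rho ℓ (b g⁻¹) :
          Matrix (Fin n) (Fin n) ℤ_[ℓ])).map (algebraMap ℤ_[ℓ] ℚ_[ℓ])).transpose := by
      funext g
      rw [MonoidHom.comp_apply, coe_dual, ← map_inv]
      rfl
    rw [h1]
    have h2 : Continuous fun g : GK F => (T.rho ℓ (b g⁻¹) : Matrix (Fin n) (Fin n) ℤ_[ℓ]) :=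
      (hT.continuous ℓ).comp (hb.comp continuous_inv)
    have h3 : Continuous (algebraMap ℤ_[ℓ] ℚ_[ℓ]) := continuous_subtype_val
    exact (h2.matrix_map h3).matrix_transpose
  · -- semisimple
    intro W hW
    exact semi_dual ((T.rat ℓ).comp b.toMonoidHom) (fun U hU => by
      obtain ⟨U', h1, h2⟩ := hsemi ℓ hℓΛ U (fun g u hu => by
        have := hU (b.symm g) u hu
        rw [MonoidHom.comp_apply] at this
        have e : b.toMonoidHom (b.symm g) = g := b.apply_symm_apply g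
        rwa [e] at this)
      exact ⟨U', fun g u hu => h1 (b g) u hu, h2⟩) W hW
  · intro v hv hℓv
    have h0 := data hT b hF hI hN v hv ℓ hℓv
    constructor
    · intro τ hτ
      have h1 := h0.1 τ hτ
      show dual (T.rat ℓ (b τ)) = 1
      unfold IntegralSystem.rat
      rw [MonoidHom.comp_apply, h1, map_one, map_one]
    · intro σ hσ
      have h1 := h0.2 σ hσ
      show (dual (T.rat ℓ (b σ)) : Matrix (Fin n) (Fin n) ℚ_[ℓ]).charpoly = _
      rw [charpoly_dual, ← map_inv]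
      have h4 : (T.rat ℓ (b σ)⁻¹ : Matrix (Fin n) (Fin n) ℚ_[ℓ]) =
          (T.rho ℓ (b σ)⁻¹ : Matrix (Fin n) (Fin n) ℤ_[ℓ]).map (algebraMap ℤ_[ℓ] ℚ_[ℓ]) := rfl
      rw [h4, Matrix.charpoly_map, h1, Polynomial.map_map, Polynomial.map_map]
      exact congrArg (fun f => Polynomial.map f (T.poly v.asIdeal)) (Subsingleton.elim _ _)

end Pool.Agent.H328.ZO.SYS
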